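import Pool.Agent.Run7.h157.FS.Core

set_option autoImplicit false

/-!
The result of `Core` passes from the line to every nontrivial real inner product space `H`:
a retraction for `H` gives one for the line, by inclusion of a line and orthogonal projection.
-/

namespace Run7.h157.FS

/-- A map which does not increase distances does not increase the Hausdorff distance of
nonempty finite sets. -/
theorem hd_image_le {X Y : Type*} [PseudoMetricSpace X] [PseudoMetricSpace Y] (f : X → Y)
    (hf : ∀ x y, dist (f x) (f y) ≤ dist x y) {A B : Set X} (hA : A.Nonempty) (hB : B.Nonempty)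
    (hAf : A.Finite) (hBf : B.Finite) :
    Metric.hausdorffDist (f '' A) (f '' B) ≤ Metric.hausdorffDist A B := by
  refine le_of_forall_pos_lt_add (fun ε hε => ?_)
  have fin : Metric.hausdorffEDist A B ≠ ⊤ :=
    Metric.hausdorffEDist_ne_top_of_nonempty_of_bounded hA hB hAf.isBounded hBf.isBounded
  have h0 : 0 ≤ Metric.hausdorffDist A B := Metric.hausdorffDist_nonneg
  refine lt_of_le_of_lt (Metric.hausdorffDist_le_of_mem_dist
    (r := Metric.hausdorffDist A B + ε / 2) (by linarith) ?_ ?_) (by linarith)
  · rintro _ ⟨a, ha, rfl⟩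
    obtain ⟨b, hb, hab⟩ := Metric.exists_dist_lt_of_hausdorffDist_lt ha
      (show Metric.hausdorffDist A B < Metric.hausdorffDist A B + ε / 2 by linarith) fin
    exact ⟨f b, ⟨b, hb, rfl⟩, (hf a b).trans hab.le⟩
  · rintro _ ⟨b, hb, rfl⟩
    obtain ⟨a, ha, hab⟩ := Metric.exists_dist_lt_of_hausdorffDist_lt' hb
      (show Metric.hausdorffDist A B < Metric.hausdorffDist A B + ε / 2 by linarith) fin
    refine ⟨f a, ⟨a, ha, rfl⟩, ?_⟩
    rw [dist_comm]
    exact (hf a b).trans hab.le

/-- For every nontrivial real inner product space `H` and every even `n`, a retraction of `H(n)`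
onto `H(n-1)` has Lipschitz constant larger than `(n - 4) / 2`. -/
theorem hilbert (H : Type*) [NormedAddCommGroup H] [InnerProductSpace ℝ H] [Nontrivial H]
    (n : ℕ) (hn : Even n) (C : ℝ) (hC : 0 ≤ C) (hCn : 2 * C + 4 ≤ n) :
    ¬ ∃ r : Finset H → Finset H,
      (∀ s : Finset H, s.Nonempty → s.card ≤ n → (r s).Nonempty ∧ (r s).card ≤ n - 1) ∧
      (∀ s : Finset H, s.Nonempty → s.card ≤ n - 1 → r s = s) ∧
      (∀ s t : Finset H, s.Nonempty → s.card ≤ n → t.Nonempty → t.card ≤ n →
        Metric.hausdorffDist (r s : Set H) (r t : Set H) ≤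
          C * Metric.hausdorffDist (s : Set H) (t : Set H)) := by
  classical
  rintro ⟨r, h1, h2, h3⟩
  obtain ⟨e, he⟩ : ∃ e : H, ‖e‖ = 1 := exists_norm_eq H zero_le_one
  have hn4 : 4 ≤ n := by
    have : (4 : ℝ) ≤ n := by linarith
    exact_mod_cast this
  obtain ⟨d, rfl⟩ : ∃ d, n = d + 1 := ⟨n - 1, by omega⟩
  simp only [Nat.add_sub_cancel] at h1 h2
  have hodd : Odd d := by
    rcases Nat.even_or_odd d with h | h
    · exact absurd hn (by rw [Nat.even_add_one]; exact not_not.2 h)
    · exact h
  let i : ℝ → H := fun t => t • e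
  let p : H → ℝ := fun x => inner ℝ e x
  have hpi : ∀ t, p (i t) = t := by
    intro t
    simp only [p, i]
    rw [inner_smul_right, real_inner_self_eq_norm_sq, he]
    ring
  have hp : ∀ x y, dist (p x) (p y) ≤ dist x y := by
    intro x y
    simp only [p]
    rw [Real.dist_eq, ← inner_sub_right, dist_eq_norm]
    have := abs_real_inner_le_norm e (x - y)
    rwa [he, one_mul] at this
  have hi : Isometry i := by
    apply Isometry.of_dist_eq
    intro s t
    simp only [i]
    rw [dist_eq_norm, ← sub_smul, norm_smul, he, mul_one, Real.dist_eq, Real.norm_eq_abs]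
  have hpii : ∀ s : Finset ℝ, (s.image i).image p = s := by
    intro s
    rw [Finset.image_image]
    have : p ∘ i = id := by funext t; exact hpi t
    rw [this, Finset.image_id]
  refine core hC hodd (by push_cast at hCn; linarith) (fun s => (r (s.image i)).image p) ?_ ?_ ?_
  · intro s hs hc
    have e1 := h1 (s.image i) (hs.image i) (Finset.card_image_le.trans hc)
    exact ⟨e1.1.image p, Finset.card_image_le.trans e1.2⟩
  · intro s hs hc
    show (r (s.image i)).image p = s
    rw [h2 (s.image i) (hs.image i) (Finset.card_image_le.trans hc), hpii]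
  · intro s t hs hsc ht htc
    have e1 := h3 (s.image i) (t.image i) (hs.image i) (Finset.card_image_le.trans hsc)
      (ht.image i) (Finset.card_image_le.trans htc)
    have e2 : Metric.hausdorffDist (((s.image i : Finset H)) : Set H)
        ((t.image i : Finset H) : Set H) = Metric.hausdorffDist (s : Set ℝ) (t : Set ℝ) := by
      rw [Finset.coe_image, Finset.coe_image]
      exact Metric.hausdorffDist_image hi
    rw [e2] at e1
    refine le_trans ?_ e1
    show Metric.hausdorffDist (((r (s.image i)).image p : Finset ℝ) : Set ℝ)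
      (((r (t.image i)).image p : Finset ℝ) : Set ℝ) ≤ _
    rw [Finset.coe_image, Finset.coe_image]
    apply hd_image_le p hp
    · exact_mod_cast (h1 (s.image i) (hs.image i) (Finset.card_image_le.trans hsc)).1
    · exact_mod_cast (h1 (t.image i) (ht.image i) (Finset.card_image_le.trans htc)).1
    · exact Finset.finite_toSet _
    · exact Finset.finite_toSet _

end Run7.h157.FS
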