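import Pool.Agent.Run7.h157.FS.Labels

set_option autoImplicit false

/-!
No retraction of the space of subsets of the line with at most `d + 1` points onto the space of
subsets with at most `d` points is `C`-Lipschitz, when `d` is odd and `2 * C + 3 ≤ d`.
-/

namespace Run7.h157.FS

open H63Fed.Kuhn

theorem no_full {R g d ρ K : ℕ} (hρ : 2 * K * d + K ≤ ρ) (hg : 2 * ρ + K ≤ g)
    (B : ℕ → Finset ℝ) (hcard : ∀ j, j ≤ d + 1 → (B j).card ≤ d)
    (hnear : ∀ i, i ≤ d + 1 → ∀ j, j ≤ d + 1 → ∀ a ∈ B i, ∃ b ∈ B j, |a - b| < K)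
    (hlab : ∀ j, j ≤ d + 1 → label R g d ρ (B j) = j) : False := by
  classical
  have hρ' : (2 * K * d + K : ℝ) ≤ ρ := by exact_mod_cast hρ
  obtain ⟨z, hz, hlz⟩ := rep_of_label (B := B d) (R := R) (g := g) (d := d) (ρ := ρ)
    (by rw [hlab d (by omega)])
  rw [hlab d (by omega)] at hlz
  have htop := lab_top hlz
  have hinc : ∀ i, i < d → (th R g i : ℝ) - 2 * K ≤ inc z i := by
    intro i hi
    obtain ⟨w, hw, hlw⟩ := rep_of_label (B := B i) (R := R) (g := g) (d := d) (ρ := ρ)
      (by rw [hlab i (by omega)]; omega)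
    rw [hlab i (by omega)] at hlw
    have h1 := lab_lt hlw hi
    have hzw : ∀ j, j < d → |z j - w j| < K := by
      intro j hj
      have hmem : z j ∈ B d := by
        rw [hz.2]; exact Finset.mem_image_of_mem _ (Finset.mem_range.2 hj)
      obtain ⟨b, hb, hab⟩ := hnear d (by omega) i (by omega) (z j) hmem
      rw [hw.2] at hb
      obtain ⟨k, hk, e⟩ := Finset.mem_image.1 hb
      rw [Finset.mem_range] at hk
      subst e
      have hjk : j = k := rep_index hg (hz.1 j hj) (hw.1 k hk) hab.le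
      rw [hjk] at hab ⊢
      exact hab
    unfold inc at h1 ⊢
    split_ifs at h1 ⊢ with h2
    · have h3 := abs_lt.1 (hzw 0 (by omega))
      have h4 : (0 : ℝ) ≤ K := Nat.cast_nonneg K
      linarith [h3.1]
    · have h3 := abs_lt.1 (hzw i hi)
      have h4 := abs_lt.1 (hzw (i - 1) (by omega))
      linarith [h3.1, h4.2]
  have hclose : ∀ j, j < d → |z j - tp R g j| ≤ 2 * K * d := by
    intro j hj
    rw [tp_eq, ← inc_sum z j, ← Finset.sum_sub_distrib]
    calc |∑ i ∈ Finset.range (j + 1), (inc z i - th R g i)|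
        ≤ ∑ i ∈ Finset.range (j + 1), |inc z i - th R g i| := Finset.abs_sum_le_sum_abs _ _
      _ ≤ ∑ i ∈ Finset.range (j + 1), (2 * K : ℝ) := by
          refine Finset.sum_le_sum (fun i hi => ?_)
          rw [Finset.mem_range] at hi
          rw [abs_le]
          constructor
          · linarith [hinc i (by omega)]
          · have h4 : (0 : ℝ) ≤ K := Nat.cast_nonneg K
            linarith [htop i (by omega)]
      _ = (j + 1 : ℕ) * (2 * K : ℝ) := by simp
      _ ≤ (d : ℝ) * (2 * K : ℝ) := by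
          refine mul_le_mul_of_nonneg_right ?_ (by positivity)
          exact_mod_cast hj
      _ = 2 * K * d := by ring
  have hex : ∀ j, j < d → ∃ b, b ∈ B (d + 1) ∧ |z j - b| < K := by
    intro j hj
    have hmem : z j ∈ B d := by
      rw [hz.2]; exact Finset.mem_image_of_mem _ (Finset.mem_range.2 hj)
    obtain ⟨b, hb, hab⟩ := hnear d (by omega) (d + 1) le_rfl (z j) hmem
    exact ⟨b, hb, hab⟩
  choose! b hb1 hb2 using hex
  have hb3 : ∀ j, j < d → |b j - tp R g j| < ρ := by
    intro j hj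
    have h1 := abs_lt.1 (hb2 j hj)
    have h2 := abs_le.1 (hclose j hj)
    rw [abs_lt]
    constructor <;> linarith [h1.1, h1.2, h2.1, h2.2]
  have hinj : Set.InjOn b (Finset.range d : Set ℕ) := by
    intro i hi j hj e
    rw [Finset.coe_range, Set.mem_Iio] at hi hj
    exact rep_index hg (hb3 i hi) (hb3 j hj) (by rw [e]; simp)
  have hsub : (Finset.range d).image b ⊆ B (d + 1) := by
    intro x hx
    obtain ⟨j, hj, rfl⟩ := Finset.mem_image.1 hx
    exact hb1 j (Finset.mem_range.1 hj)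
  have heq : (Finset.range d).image b = B (d + 1) := by
    apply Finset.eq_of_subset_of_card_le hsub
    rw [Finset.card_image_of_injOn hinj, Finset.card_range]
    exact hcard (d + 1) le_rfl
  exact not_rep_of_label (by omega : 2 * ρ ≤ g) (hlab (d + 1) le_rfl) b ⟨hb3, heq.symm⟩

theorem ps_zero (u : ℕ → ℕ) : ps u 0 = u 0 := by simp [ps]

theorem ps_succ (u : ℕ → ℕ) (j : ℕ) : ps u (j + 1) = ps u j + u (j + 1) := by
  unfold ps; rw [Finset.sum_range_succ _ (j + 1)]

theorem ps_mono (u : ℕ → ℕ) : Monotone (ps u) :=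
  monotone_nat_of_le_succ (fun j => by rw [ps_succ]; omega)

theorem le_ps (u : ℕ → ℕ) (j : ℕ) : u j ≤ ps u j := by
  cases j with
  | zero => rw [ps_zero]
  | succ j => rw [ps_succ]; omega

theorem proper {C : ℝ} {d : ℕ} (hC : 0 ≤ C) (hd : 2 * C + 3 ≤ d) (r : Finset ℝ → Finset ℝ)
    (h1 : ∀ s : Finset ℝ, s.Nonempty → s.card ≤ d + 1 → (r s).Nonempty)
    (h2 : ∀ s : Finset ℝ, s.Nonempty → s.card ≤ d → r s = s)
    (h3 : ∀ s t : Finset ℝ, s.Nonempty → s.card ≤ d + 1 → t.Nonempty → t.card ≤ d + 1 →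
      Metric.hausdorffDist (r s : Set ℝ) (r t : Set ℝ) ≤
        C * Metric.hausdorffDist (s : Set ℝ) (t : Set ℝ))
    (lo hi : ℝ) (u : ℕ → ℕ) (hr : ∀ x ∈ r (cfg (d + 1) u), lo < x ∧ x < hi) :
    ∀ j, j ≤ d → lo - (C + 1) * (hi - lo + 2) - 1 < ps u j ∧
      (ps u j : ℝ) < hi + (C + 1) * (hi - lo + 2) + 1 := by
  classical
  have hd1 : (1 : ℝ) ≤ d := by linarith
  have hd1' : 1 ≤ d := by exact_mod_cast hd1
  obtain ⟨i0, hi0, hmin⟩ := Finset.exists_min_image (Finset.Icc 1 d) u
    ⟨1, Finset.mem_Icc.2 ⟨le_rfl, hd1'⟩⟩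
  rw [Finset.mem_Icc] at hi0
  set δ : ℝ := (u i0 : ℝ) with hδ
  have hδ0 : 0 ≤ δ := Nat.cast_nonneg _
  set A : Finset ℝ := cfg (d + 1) u with hA
  set A' : Finset ℝ := ((Finset.range (d + 1)).erase i0).image (fun j => (ps u j : ℝ)) with hA'
  have hAne : A.Nonempty := cfg_nonempty (by omega) u
  have hAc : A.card ≤ d + 1 := cfg_card _ _
  have hA'ne : A'.Nonempty := ⟨_, Finset.mem_image.2 ⟨0, Finset.mem_erase.2
    ⟨by omega, Finset.mem_range.2 (by omega)⟩, rfl⟩⟩
  have hA'c : A'.card ≤ d := by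
    refine Finset.card_image_le.trans ?_
    rw [Finset.card_erase_of_mem (Finset.mem_range.2 (by omega)), Finset.card_range]
    omega
  have hdist : Metric.hausdorffDist (A' : Set ℝ) (A : Set ℝ) ≤ δ := by
    apply Metric.hausdorffDist_le_of_mem_dist hδ0
    · intro x hx
      obtain ⟨j, hj, rfl⟩ := Finset.mem_image.1 (Finset.mem_coe.1 hx)
      refine ⟨_, Finset.mem_coe.2 (Finset.mem_image.2 ⟨j, (Finset.mem_erase.1 hj).2, rfl⟩), ?_⟩
      rw [dist_self]; exact hδ0
    · intro x hx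
      obtain ⟨j, hj, rfl⟩ := Finset.mem_image.1 (Finset.mem_coe.1 hx)
      by_cases hji : j = i0
      · refine ⟨_, Finset.mem_coe.2 (Finset.mem_image.2 ⟨i0 - 1, Finset.mem_erase.2
          ⟨by omega, Finset.mem_range.2 (by omega)⟩, rfl⟩), ?_⟩
        subst hji
        obtain ⟨k, rfl⟩ : ∃ k, j = k + 1 := ⟨j - 1, by omega⟩
        rw [Real.dist_eq, Nat.add_sub_cancel, ps_succ, hδ]
        push_cast
        rw [add_sub_cancel_left, abs_of_nonneg (Nat.cast_nonneg _)]
      · refine ⟨_, Finset.mem_coe.2 (Finset.mem_image.2 ⟨j, Finset.mem_erase.2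
          ⟨hji, hj⟩, rfl⟩), ?_⟩
        rw [dist_self]; exact hδ0
  have hrne : (r A).Nonempty := h1 A hAne hAc
  have hbound : Metric.hausdorffDist (A : Set ℝ) (r A : Set ℝ) ≤ (C + 1) * δ := by
    have e1 := h3 A A' hAne hAc hA'ne (hA'c.trans (Nat.le_succ _))
    rw [h2 A' hA'ne hA'c] at e1
    have fin : Metric.hausdorffEDist (A : Set ℝ) (A' : Set ℝ) ≠ ⊤ :=
      Metric.hausdorffEDist_ne_top_of_nonempty_of_bounded (by exact_mod_cast hAne)
        (by exact_mod_cast hA'ne) A.finite_toSet.isBounded A'.finite_toSet.isBounded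
    have e2 := Metric.hausdorffDist_triangle (u := (r A : Set ℝ)) fin
    rw [Metric.hausdorffDist_comm (s := (A' : Set ℝ)) (t := (r A : Set ℝ))] at e2
    rw [Metric.hausdorffDist_comm] at hdist
    have e3 : C * Metric.hausdorffDist (A : Set ℝ) (A' : Set ℝ) ≤ C * δ :=
      mul_le_mul_of_nonneg_left hdist hC
    linarith
  have hnear : ∀ a ∈ A, lo - (C + 1) * δ - 1 < a ∧ a < hi + (C + 1) * δ + 1 := by
    intro a ha
    obtain ⟨b, hb, hab⟩ := near_of_hd hAne hrne (lt_of_le_of_lt hbound (lt_add_one _)) a ha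
    have := hr b hb
    rw [abs_lt] at hab
    constructor <;> linarith [this.1, this.2, hab.1, hab.2]
  have hmem : ∀ j, j ≤ d → (ps u j : ℝ) ∈ A := fun j hj =>
    Finset.mem_image.2 ⟨j, Finset.mem_range.2 (by omega), rfl⟩
  have hgrow : ∀ j, j ≤ d → (ps u 0 : ℝ) + j * δ ≤ ps u j := by
    intro j
    induction j with
    | zero => intro _; simp
    | succ j ih =>
      intro hj
      have e1 := ih (by omega)
      have e2 : δ ≤ u (j + 1) := by
        have := hmin (j + 1) (Finset.mem_Icc.2 ⟨by omega, hj⟩)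
        rw [hδ]; exact_mod_cast this
      rw [ps_succ]
      push_cast
      linarith
  have hδD : δ ≤ hi - lo + 2 := by
    have e1 := hgrow d le_rfl
    have e2 := hnear _ (hmem 0 (by omega))
    have e3 := hnear _ (hmem d le_rfl)
    have e4 : (2 * C + 3) * δ ≤ d * δ := mul_le_mul_of_nonneg_right hd hδ0
    nlinarith [e2.1, e3.2]
  have hfin : (C + 1) * δ ≤ (C + 1) * (hi - lo + 2) :=
    mul_le_mul_of_nonneg_left hδD (by linarith)
  intro j hj
  have e1 := hnear _ (hmem j hj)
  constructor <;> linarith [e1.1, e1.2]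

theorem ind_ne_zero {R : Multiset ℕ} {L : List ℕ} (h : ind R L ≠ 0) : (L : Multiset ℕ) = R := by
  classical
  by_contra h1
  exact h (by simp [ind, h1])

theorem ind_mem {k : ℕ} {l : List (ℕ → ℕ)} {f : (ℕ → ℕ) → ℕ}
    (h : ind (Multiset.range k) (l.map f) ≠ 0) :
    (∀ j, j < k → ∃ v ∈ l, f v = j) ∧ ∀ v ∈ l, f v < k := by
  have h1 := ind_ne_zero h
  constructor
  · intro j hj
    have h2 : j ∈ ((l.map f : List ℕ) : Multiset ℕ) := by
      rw [h1, Multiset.mem_range]; exact hj
    rw [Multiset.mem_coe, List.mem_map] at h2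
    exact h2
  · intro v hv
    have h2 : f v ∈ ((l.map f : List ℕ) : Multiset ℕ) := by
      rw [Multiset.mem_coe, List.mem_map]; exact ⟨v, hv, rfl⟩
    rw [h1, Multiset.mem_range] at h2
    exact h2

/-- Two increasing enumerations of the same set agree. -/
theorem ps_eq_rep {R g d ρ : ℕ} (hg : 2 * ρ ≤ g) (v : ℕ → ℕ) (z : ℕ → ℝ)
    (hz : Rep R g d ρ (cfg d v) z) : ∀ j, j < d → (ps v j : ℝ) = z j := by
  classical
  have hg' : (2 * ρ : ℝ) ≤ g := by exact_mod_cast hg
  let f : Fin d → ℝ := fun i => (ps v i : ℝ)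
  let h : Fin d → ℝ := fun i => z i
  have hh : StrictMono h := by
    intro i j hij
    have e1 := abs_lt.1 (hz.1 i i.2)
    have e2 := abs_lt.1 (hz.1 j j.2)
    have e3 : ((i : ℕ) : ℝ) + 1 ≤ (j : ℕ) := by exact_mod_cast hij
    have e4 : tp R g i + g ≤ tp R g j := by
      simp only [tp]
      have : (0 : ℝ) ≤ g := Nat.cast_nonneg g
      nlinarith
    show z i < z j
    linarith [e1.2, e2.1]
  have hinjz : Set.InjOn z (Finset.range d : Set ℕ) := by
    intro i hi j hj e
    rw [Finset.coe_range, Set.mem_Iio] at hi hj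
    exact rep_index (K := 0) (by omega) (hz.1 i hi) (hz.1 j hj) (by rw [e]; simp)
  have hinj : Set.InjOn (fun j => (ps v j : ℝ)) (Finset.range d : Set ℕ) := by
    rw [← Finset.card_image_iff]
    have e : (Finset.range d).image (fun j => (ps v j : ℝ)) = (Finset.range d).image z := hz.2
    rw [e, Finset.card_image_of_injOn hinjz]
  have hf : StrictMono f := by
    have hm : Monotone f := by
      intro i j hij
      show (ps v i : ℝ) ≤ ps v j
      exact_mod_cast ps_mono v hij
    apply hm.strictMono_of_injective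
    intro i j e
    have := hinj (by rw [Finset.coe_range, Set.mem_Iio]; exact i.2)
      (by rw [Finset.coe_range, Set.mem_Iio]; exact j.2) e
    exact Fin.ext this
  have hrange : Set.range f = Set.range h := by
    ext x
    constructor
    · rintro ⟨i, rfl⟩
      have e1 : f i ∈ cfg d v := Finset.mem_image.2 ⟨i, Finset.mem_range.2 i.2, rfl⟩
      rw [hz.2] at e1
      obtain ⟨k, hk, e⟩ := Finset.mem_image.1 e1
      exact ⟨⟨k, Finset.mem_range.1 hk⟩, e⟩
    · rintro ⟨i, rfl⟩
      have e1 : h i ∈ (Finset.range d).image z :=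
        Finset.mem_image.2 ⟨i, Finset.mem_range.2 i.2, rfl⟩
      rw [← hz.2] at e1
      obtain ⟨k, hk, e⟩ := Finset.mem_image.1 e1
      exact ⟨⟨k, Finset.mem_range.1 hk⟩, e⟩
  have hfh : f = h := (StrictMono.range_inj hf hh).1 hrange
  intro j hj
  exact congrFun hfh ⟨j, hj⟩

theorem count {R g d ρ m : ℕ} (hR : 0 < R) (hg0 : 0 < g) (hρ : d < ρ) (hg : 2 * ρ ≤ g)
    (hRm : R ≤ m) (hgm : g ≤ m) :
    grid m (fun _ => 0) d (fun l => ind (Multiset.range (d + 1))
      (l.map (fun v => label R g d ρ (cfg d v)))) = 1 := by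
  classical
  have hth0 : ∀ i, 0 < th R g i := by
    intro i; unfold th; split_ifs <;> assumption
  have hthm : ∀ i, th R g i ≤ m := by
    intro i; unfold th; split_ifs <;> assumption
  have key := kuhn_parity m (fun _ => 0) d (fun v => lab R g d (fun j => (ps v j : ℝ)))
    (fun x => lab_le _ _ _ _)
    (by
      intro i hi x hx h
      have h1 := lab_lt h hi
      rw [inc_ps, hx] at h1
      have h2 : (0 : ℝ) < th R g i := by exact_mod_cast hth0 i
      rw [Nat.cast_zero] at h1
      linarith)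
    (by
      intro i hi x hx
      apply lab_le_of hi
      rw [inc_ps, hx]
      exact_mod_cast hthm i)
  rw [← key]
  apply grid_congr
  rintro l ⟨x, hx, hl⟩
  by_cases hall : ∀ v ∈ l, ∀ j, j < d → |(ps v j : ℝ) - tp R g j| < ρ
  · congr 1
    apply List.map_congr_left
    intro v hv
    exact label_of_rep hg ⟨hall v hv, rfl⟩
  · push Not at hall
    obtain ⟨v, hv, j, hj, hfar⟩ := hall
    have e1 : ind (Multiset.range (d + 1)) (l.map (fun v => label R g d ρ (cfg d v))) = 0 := by
      by_contra hne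
      obtain ⟨-, h2⟩ := ind_mem hne
      obtain ⟨z, hz, -⟩ := rep_of_label (Nat.lt_succ_iff.1 (h2 v hv))
      have h3 := ps_eq_rep hg v z hz j hj
      rw [h3] at hfar
      exact absurd (hz.1 j hj) (not_lt.2 hfar)
    have e2 : ind (Multiset.range (d + 1)) (l.map (fun v => lab R g d
        (fun j => (ps v j : ℝ)))) = 0 := by
      by_contra hne
      obtain ⟨h1, -⟩ := ind_mem hne
      obtain ⟨a, ha, hla⟩ := h1 d (by omega)
      have h2 : ∀ i, i < d → |(v i : ℝ) - th R g i| ≤ 1 := by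
        intro i hi
        have h3 := lab_top hla i hi
        rw [inc_ps] at h3
        have h3' : a i < th R g i := by exact_mod_cast h3
        obtain ⟨b, hb, hlb⟩ := h1 i (by omega)
        have h4 := lab_lt hlb hi
        rw [inc_ps] at h4
        have h4' : th R g i ≤ b i := by exact_mod_cast h4
        have h5 := (hl a ha).1 i hi
        have h6 := (hl b hb).1 i hi
        have h7 := (hl v hv).1 i hi
        have h8 : v i ≤ th R g i + 1 ∧ th R g i ≤ v i + 1 := by omega
        have h9 : (v i : ℝ) ≤ th R g i + 1 := by exact_mod_cast h8.1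
        have h10 : (th R g i : ℝ) ≤ v i + 1 := by exact_mod_cast h8.2
        rw [abs_le]
        constructor <;> linarith
      have h3 := ps_near hj h2
      have h4 : (ps (th R g) j : ℝ) = tp R g j := by
        rw [tp_eq]; simp [ps]
      rw [h4] at h3
      have h5 : (d : ℝ) < ρ := by exact_mod_cast hρ
      linarith
    rw [e1, e2]

theorem core {C : ℝ} (hC : 0 ≤ C) {d : ℕ} (hodd : Odd d) (hd : 2 * C + 3 ≤ d)
    (r : Finset ℝ → Finset ℝ)
    (h1 : ∀ s : Finset ℝ, s.Nonempty → s.card ≤ d + 1 → (r s).Nonempty ∧ (r s).card ≤ d)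
    (h2 : ∀ s : Finset ℝ, s.Nonempty → s.card ≤ d → r s = s)
    (h3 : ∀ s t : Finset ℝ, s.Nonempty → s.card ≤ d + 1 → t.Nonempty → t.card ≤ d + 1 →
      Metric.hausdorffDist (r s : Set ℝ) (r t : Set ℝ) ≤
        C * Metric.hausdorffDist (s : Set ℝ) (t : Set ℝ)) : False := by
  classical
  have hd1 : (1 : ℝ) ≤ d := by linarith
  have hd1' : 1 ≤ d := by exact_mod_cast hd1
  obtain ⟨K, hK⟩ := exists_nat_gt (C * ((d : ℝ) + 1))
  obtain ⟨ρ, hρdef⟩ : ∃ ρ : ℕ, ρ = 2 * K * d + K + d + 1 := ⟨_, rfl⟩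
  obtain ⟨g, hgdef⟩ : ∃ g : ℕ, g = 2 * ρ + K := ⟨_, rfl⟩
  obtain ⟨D, hD⟩ : ∃ D : ℝ, D = (d : ℝ) * g + 2 * ρ + 2 := ⟨_, rfl⟩
  have hD0 : 0 ≤ D := by rw [hD]; positivity
  have hCD : 0 ≤ (C + 1) * D := mul_nonneg (by linarith) hD0
  obtain ⟨R, hR⟩ := exists_nat_gt ((ρ : ℝ) + (C + 1) * D + 1)
  obtain ⟨m, hm⟩ := exists_nat_gt ((R : ℝ) + d * g + ρ + (C + 1) * D + 1)
  have hρ0 : (0 : ℝ) ≤ ρ := Nat.cast_nonneg ρ
  have hg0 : (0 : ℝ) ≤ g := Nat.cast_nonneg g
  have hR0 : (0 : ℝ) ≤ R := Nat.cast_nonneg R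
  have hdg : (g : ℝ) ≤ d * g := by nlinarith
  have hRpos : 0 < R := by
    have : (0 : ℝ) < R := by linarith
    exact_mod_cast this
  have hRm : R ≤ m := by
    have : (R : ℝ) ≤ m := by linarith
    exact_mod_cast this
  have hgm : g ≤ m := by
    have : (g : ℝ) ≤ m := by linarith
    exact_mod_cast this
  have hgpos : 0 < g := by omega
  have hgK : 2 * ρ + K ≤ g := hgdef.ge
  have hρK : 2 * K * d + K ≤ ρ := by omega
  -- only configurations in the middle of the grid carry a finite label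
  have far : ∀ u : ℕ → ℕ, label R g d ρ (r (cfg (d + 1) u)) ≤ d →
      0 < u 0 ∧ ∀ i, i ≤ d → u i < m := by
    intro u hu
    obtain ⟨z, hz, -⟩ := rep_of_label hu
    have hr : ∀ x ∈ r (cfg (d + 1) u), (R : ℝ) - ρ < x ∧ x < (R : ℝ) + d * g + ρ := by
      intro x hx
      rw [hz.2] at hx
      obtain ⟨j, hj, rfl⟩ := Finset.mem_image.1 hx
      rw [Finset.mem_range] at hj
      have e1 := abs_lt.1 (hz.1 j hj)
      have e2 : (j : ℝ) * g ≤ d * g := by
        refine mul_le_mul_of_nonneg_right ?_ hg0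
        exact_mod_cast hj.le
      have e3 : (0 : ℝ) ≤ j * g := by positivity
      have e4 : tp R g j = R + j * g := rfl
      rw [e4] at e1
      constructor <;> linarith [e1.1, e1.2]
    have hp := proper hC hd r (fun s a b => (h1 s a b).1) h2 h3 _ _ u hr
    have e5 : ((R : ℝ) + d * g + ρ) - (R - ρ) + 2 = D := by rw [hD]; ring
    rw [e5] at hp
    constructor
    · have := (hp 0 (by omega)).1
      rw [ps_zero] at this
      have h4 : (0 : ℝ) < u 0 := by linarith
      exact_mod_cast h4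
    · intro i hi
      have h4 := (hp i hi).2
      have h5 : (u i : ℝ) ≤ ps u i := by exact_mod_cast le_ps u i
      have h6 : (u i : ℝ) < m := by linarith
      exact_mod_cast h6
  obtain ⟨Λ, hΛ⟩ : ∃ Λ : (ℕ → ℕ) → ℕ, Λ = fun u => label R g d ρ (r (cfg (d + 1) u)) := ⟨_, rfl⟩
  have hΛ' : ∀ u, Λ u = label R g d ρ (r (cfg (d + 1) u)) := fun u => by rw [hΛ]
  -- no unit cube carries all the labels
  have z1 : grid m (fun _ => 0) (d + 1)
      (fun l => del l (fun l' => ind (Multiset.range (d + 1)) (l'.map Λ))) = 0 := by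
    apply grid_congr_zero
    rintro l ⟨x, hx, hl⟩
    rw [← del_map Λ l (ind (Multiset.range (d + 1))), del_ind_range]
    · by_contra hne
      obtain ⟨hex, -⟩ := ind_mem hne
      choose! v hv1 hv2 using hex
      apply no_full hρK hgK (fun j => r (cfg (d + 1) (v j)))
      · intro j hj
        exact (h1 _ (cfg_nonempty (by omega) _) (cfg_card _ _)).2
      · intro i hi j hj a ha
        refine near_of_hd (h1 _ (cfg_nonempty (by omega) _) (cfg_card _ _)).1
          (h1 _ (cfg_nonempty (by omega) _) (cfg_card _ _)).1 ?_ a ha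
        have e1 := h3 (cfg (d + 1) (v i)) (cfg (d + 1) (v j)) (cfg_nonempty (by omega) _)
          (cfg_card _ _) (cfg_nonempty (by omega) _) (cfg_card _ _)
        have e2 : Metric.hausdorffDist (cfg (d + 1) (v i) : Set ℝ)
            (cfg (d + 1) (v j) : Set ℝ) ≤ ((d + 1 : ℕ) : ℝ) := by
          apply cfg_near
          intro t ht
          have h5 := (hl _ (hv1 i (by omega))).1 t ht
          have h6 := (hl _ (hv1 j (by omega))).1 t ht
          have h7 : v i t ≤ v j t + 1 ∧ v j t ≤ v i t + 1 := by omega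
          have h8 : (v i t : ℝ) ≤ v j t + 1 := by exact_mod_cast h7.1
          have h9 : (v j t : ℝ) ≤ v i t + 1 := by exact_mod_cast h7.2
          rw [abs_le]
          constructor <;> linarith
        have e3 := mul_le_mul_of_nonneg_left e2 hC
        push_cast at e3
        linarith
      · intro j hj
        have := hv2 j (by omega)
        rw [hΛ'] at this
        exact this
    · intro a ha
      obtain ⟨u, -, rfl⟩ := List.mem_map.1 ha
      rw [hΛ']
      exact label_le _
  -- the faces far away contribute nothing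
  have z2 : ∀ i c, (c = m ∧ i ≤ d) ∨ (c = 0 ∧ i = 0) → grid m (fun _ => 0) d
      (fun l => ind (Multiset.range (d + 1)) ((l.map (ins i c)).map Λ)) = 0 := by
    intro i c hic
    apply grid_congr_zero
    rintro l -
    by_contra hne
    obtain ⟨hex, -⟩ := ind_mem hne
    obtain ⟨v, hv, hv2⟩ := hex 0 (by omega)
    obtain ⟨w, -, rfl⟩ := List.mem_map.1 hv
    rw [hΛ'] at hv2
    obtain ⟨h4, h5⟩ := far (ins i c w) (by omega)
    rcases hic with ⟨rfl, hi⟩ | ⟨rfl, rfl⟩
    · have := h5 i hi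
      simp [ins] at this
    · simp [ins] at h4
  -- the faces where two points agree contribute one each
  have z3 : ∀ i, 1 ≤ i → i ≤ d → grid m (fun _ => 0) d
      (fun l => ind (Multiset.range (d + 1)) ((l.map (ins i 0)).map Λ)) = 1 := by
    intro i hi hid
    rw [← count (R := R) (g := g) (d := d) (ρ := ρ) (m := m) hRpos hgpos (by omega) (by omega)
      hRm hgm]
    congr 1
    funext l
    rw [List.map_map]
    congr 1
    apply List.map_congr_left
    intro v _
    simp only [Function.comp_apply]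
    rw [hΛ', cfg_ins hi hid, h2 _ (cfg_nonempty (by omega) _) (cfg_card _ _)]
  rw [stokes, Finset.sum_range_succ'] at z1
  rw [z2 0 m (Or.inl ⟨rfl, by omega⟩), z2 0 0 (Or.inr ⟨rfl, rfl⟩), add_zero, add_zero] at z1
  rw [Finset.sum_congr rfl (g := fun _ => (1 : ZMod 2)) (fun i hi => by
    rw [Finset.mem_range] at hi
    rw [z2 (i + 1) m (Or.inl ⟨rfl, by omega⟩), z3 (i + 1) (by omega) (by omega), zero_add])] at z1
  rw [Finset.sum_const, Finset.card_range, nsmul_eq_mul, mul_one] at z1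
  rw [ZMod.natCast_eq_zero_iff_even] at z1
  exact (Nat.not_even_iff_odd.2 hodd) z1

/-- There are no uniformly Lipschitz retractions between the finite subset spaces of the line. -/
theorem line (C : ℝ) : ∃ n : ℕ, 2 ≤ n ∧ ¬ ∃ r : Finset ℝ → Finset ℝ,
    (∀ s : Finset ℝ, s.Nonempty → s.card ≤ n → (r s).Nonempty ∧ (r s).card ≤ n - 1) ∧
    (∀ s : Finset ℝ, s.Nonempty → s.card ≤ n - 1 → r s = s) ∧
    (∀ s t : Finset ℝ, s.Nonempty → s.card ≤ n → t.Nonempty → t.card ≤ n →
      Metric.hausdorffDist (r s : Set ℝ) (r t : Set ℝ) ≤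
        C * Metric.hausdorffDist (s : Set ℝ) (t : Set ℝ)) := by
  obtain ⟨k, hk⟩ := exists_nat_gt (2 * max C 0 + 3)
  refine ⟨2 * k + 2, by omega, ?_⟩
  rintro ⟨r, h1, h2, h3⟩
  have hk0 : (0 : ℝ) ≤ k := Nat.cast_nonneg k
  refine core (C := max C 0) (le_max_right _ _) (d := 2 * k + 1) ⟨k, rfl⟩ ?_ r h1 h2 ?_
  · push_cast
    linarith
  · intro s t a b c e
    refine (h3 s t a b c e).trans ?_
    exact mul_le_mul_of_nonneg_right (le_max_left _ _) Metric.hausdorffDist_nonneg

end Run7.h157.FS
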