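import Pool.Agent.H63Fed.Kuhn

set_option autoImplicit false

/-!
Additions to the mod 2 grid calculus of `H63Fed.Kuhn`: congruence, and the full Stokes formula over
all the faces of the grid `[0,m]^(k+1)`.
-/

namespace Run7.h157.FS

open H63Fed.Kuhn

theorem prism_map_left {U V W : Type*} (f : U → V) (b t : V → W) (l : List U)
    (φ : List W → ZMod 2) :
    prism b t (l.map f) φ = prism (fun u => b (f u)) (fun u => t (f u)) l φ := by
  induction l generalizing φ with
  | nil => simp [prism]
  | cons v l ih =>
    simp only [List.map_cons, prism, List.map_map]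
    rw [ih (fun l' => φ (b (f v) :: l'))]
    rfl

theorem prism_map_right {V W X : Type*} (g : W → X) (b t : V → W) (l : List V)
    (φ : List X → ZMod 2) :
    prism (fun v => g (b v)) (fun v => g (t v)) l φ = prism b t l (fun l' => φ (l'.map g)) := by
  induction l generalizing φ with
  | nil => simp [prism]
  | cons v l ih =>
    simp only [prism, List.map_cons, List.map_map]
    rw [ih (fun l' => φ (g (b v) :: l'))]
    rfl

/-- A list of grid points lies in a unit cube of the grid `[0,m]^k` (other coordinates zero). -/
def InCube (m k : ℕ) (l : List (ℕ → ℕ)) : Prop :=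
  ∃ x : ℕ → ℕ, (∀ i, i < k → x i < m) ∧
    ∀ y ∈ l, (∀ i, i < k → y i = x i ∨ y i = x i + 1) ∧ (∀ i, k ≤ i → y i = 0)

theorem grid_congr (m k : ℕ) (φ ψ : List (ℕ → ℕ) → ZMod 2)
    (h : ∀ l, InCube m k l → φ l = ψ l) :
    grid m (fun _ => 0) k φ = grid m (fun _ => 0) k ψ := by
  have h1 : grid m (fun _ => 0) k (fun l => φ l + ψ l) = 0 := by
    by_contra hne
    obtain ⟨l, hl, x, hx, hy⟩ := grid_supp _ _ _ _ hne
    apply hl
    rw [h l ⟨x, hx, hy⟩, two_eq]
  rw [grid_add] at h1
  exact CharTwo.add_eq_zero.1 h1

theorem grid_congr_zero (m k : ℕ) (φ : List (ℕ → ℕ) → ZMod 2)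
    (h : ∀ l, InCube m k l → φ l = 0) :
    grid m (fun _ => 0) k φ = 0 := by
  rw [grid_congr m k φ (fun _ => 0) h]
  exact grid_zero _ _ _ _ (fun _ => rfl)

/-- Insert the value `c` at place `i`. -/
def ins (i c : ℕ) (v : ℕ → ℕ) : ℕ → ℕ :=
  fun j => if j < i then v j else if j = i then c else v (j - 1)

theorem ins_update (i c k t : ℕ) (hik : i ≤ k) (v : ℕ → ℕ) :
    Function.update (ins i c v) (k + 1) t = ins i c (Function.update v k t) := by
  funext j
  simp only [ins, Function.update_apply]
  by_cases h1 : j = k + 1
  · subst h1
    have h2 : ¬ (k + 1 < i) := by omega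
    have h3 : ¬ (k + 1 = i) := by omega
    simp [h2, h3]
  · by_cases h2 : j < i
    · have h3 : j ≠ k := by omega
      simp [h1, h2, h3]
    · by_cases h3 : j = i
      · simp [h3]
        intro h4
        omega
      · have h4 : j - 1 ≠ k := by omega
        simp [h1, h2, h3, h4]

/-- Stokes' formula for the grid. -/
theorem stokes (m k : ℕ) (φ : List (ℕ → ℕ) → ZMod 2) :
    grid m (fun _ => 0) (k + 1) (fun l => del l φ) =
      ∑ i ∈ Finset.range (k + 1),
        (grid m (fun _ => 0) k (fun l => φ (l.map (ins i m))) +
          grid m (fun _ => 0) k (fun l => φ (l.map (ins i 0)))) := by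
  have last : ∀ (k : ℕ) (φ : List (ℕ → ℕ) → ZMod 2) (c : ℕ),
      grid m (fun _ => 0) k (fun l => φ (l.map (fun v => Function.update v k c))) =
      grid m (fun _ => 0) k (fun l => φ (l.map (ins k c))) := by
    intro k φ c
    apply grid_congr
    rintro l ⟨x, hx, hl⟩
    congr 1
    apply List.map_congr_left
    intro v hv
    funext j
    simp only [ins, Function.update_apply]
    by_cases h1 : j = k
    · subst h1; simp
    · by_cases h2 : j < k
      · simp [h1, h2]
      · simp only [h1, h2, if_false]
        rw [(hl v hv).2 j (by omega), (hl v hv).2 (j - 1) (by omega)]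
  induction k generalizing φ with
  | zero =>
    rw [grid_del, last, last]
    simp [grid, del, prism]
  | succ k ih =>
    rw [grid_del, last, last, Finset.sum_range_succ _ (k + 1), add_assoc]
    congr 1
    have e : ∀ t, grid m (fun _ => 0) (k + 1) (fun l => del l (fun l' =>
        prism (fun v => Function.update v (k + 1) t)
          (fun v => Function.update v (k + 1) (t + 1)) l' φ)) =
        ∑ i ∈ Finset.range (k + 1),
          (grid m (fun _ => 0) k (fun l => prism (fun v => Function.update v k t)
            (fun v => Function.update v k (t + 1)) l (fun l' => φ (l'.map (ins i m)))) +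
          grid m (fun _ => 0) k (fun l => prism (fun v => Function.update v k t)
            (fun v => Function.update v k (t + 1)) l (fun l' => φ (l'.map (ins i 0))))) := by
      intro t
      rw [ih]
      refine Finset.sum_congr rfl (fun i hi => ?_)
      rw [Finset.mem_range] at hi
      have key : ∀ c, (fun l : List (ℕ → ℕ) => prism (fun v => Function.update v (k + 1) t)
          (fun v => Function.update v (k + 1) (t + 1)) (l.map (ins i c)) φ) =
          (fun l => prism (fun v => Function.update v k t)
            (fun v => Function.update v k (t + 1)) l (fun l' => φ (l'.map (ins i c)))) := by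
        intro c
        funext l
        rw [prism_map_left, ← prism_map_right]
        simp only [ins_update i c k _ (by omega : i ≤ k)]
      rw [key, key]
    simp only [e]
    rw [Finset.sum_comm]
    refine Finset.sum_congr rfl (fun i _ => ?_)
    rw [Finset.sum_add_distrib]
    simp only [grid]

end Run7.h157.FS
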