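import Pool.Agent.Run7.h157.FS.Grid

set_option autoImplicit false

/-!
Labels of finite subsets of the line.
-/

namespace Run7.h157.FS

open H63Fed.Kuhn

/-- Partial sums of a sequence of natural numbers. -/
def ps (u : ℕ → ℕ) (j : ℕ) : ℕ := ∑ i ∈ Finset.range (j + 1), u i

/-- The set of the first `k` partial sums. -/
noncomputable def cfg (k : ℕ) (u : ℕ → ℕ) : Finset ℝ :=
  (Finset.range k).image (fun j => (ps u j : ℝ))

/-- Increments of a real sequence. -/
noncomputable def inc (z : ℕ → ℝ) (i : ℕ) : ℝ := if i = 0 then z 0 else z i - z (i - 1)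

theorem inc_sum (z : ℕ → ℝ) (j : ℕ) : ∑ i ∈ Finset.range (j + 1), inc z i = z j := by
  induction j with
  | zero => simp [inc]
  | succ j ih =>
    rw [Finset.sum_range_succ, ih]
    simp [inc]

theorem inc_ps (u : ℕ → ℕ) (i : ℕ) : inc (fun j => (ps u j : ℝ)) i = u i := by
  unfold inc
  by_cases h : i = 0
  · subst h; simp [ps]
  · obtain ⟨k, rfl⟩ := Nat.exists_eq_succ_of_ne_zero h
    simp [ps, Finset.sum_range_succ]

/-- The thresholds. -/
def th (R g : ℕ) (i : ℕ) : ℕ := if i = 0 then R else g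

/-- The target positions. -/
noncomputable def tp (R g : ℕ) (j : ℕ) : ℝ := R + j * g

theorem tp_eq (R g : ℕ) (j : ℕ) : tp R g j = ∑ i ∈ Finset.range (j + 1), (th R g i : ℝ) := by
  induction j with
  | zero => simp [tp, th]
  | succ j ih =>
    rw [Finset.sum_range_succ, ← ih]
    simp only [tp, th, Nat.succ_ne_zero, if_false]
    push_cast
    ring

theorem tp_sep {R g : ℕ} {j k : ℕ} (h : |tp R g j - tp R g k| < g) : j = k := by
  by_contra hne
  have h1 : (1 : ℝ) ≤ |(j : ℝ) - k| := by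
    have h2 : (1 : ℤ) ≤ |(j : ℤ) - k| := Int.one_le_abs (by omega)
    exact_mod_cast h2
  have h3 : tp R g j - tp R g k = ((j : ℝ) - k) * g := by
    simp only [tp]; ring
  rw [h3, abs_mul, Nat.abs_cast] at h
  have h4 : (0 : ℝ) ≤ g := Nat.cast_nonneg g
  nlinarith

open Classical in
/-- The label of a real sequence: the first place at which the increment reaches the threshold. -/
noncomputable def lab (R g d : ℕ) (z : ℕ → ℝ) : ℕ :=
  if h : ∃ i, i < d ∧ (th R g i : ℝ) ≤ inc z i then Nat.find h else d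

theorem lab_lt {R g d : ℕ} {z : ℕ → ℝ} {i : ℕ} (h : lab R g d z = i) (hi : i < d) :
    (th R g i : ℝ) ≤ inc z i := by
  classical
  unfold lab at h
  split_ifs at h with h1
  · have := Nat.find_spec h1
    rw [h] at this
    exact this.2
  · omega

theorem lab_top {R g d : ℕ} {z : ℕ → ℝ} (h : lab R g d z = d) :
    ∀ i, i < d → inc z i < th R g i := by
  classical
  intro i hi
  unfold lab at h
  split_ifs at h with h1
  · have := Nat.find_spec h1
    rw [h] at this
    exact absurd this.1 (lt_irrefl _)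
  · by_contra h2
    exact h1 ⟨i, hi, not_lt.1 h2⟩

theorem lab_le_of {R g d : ℕ} {z : ℕ → ℝ} {i : ℕ} (hi : i < d)
    (h : (th R g i : ℝ) ≤ inc z i) : lab R g d z ≤ i := by
  classical
  unfold lab
  rw [dif_pos ⟨i, hi, h⟩]
  exact Nat.find_min' _ ⟨hi, h⟩

theorem lab_le (R g d : ℕ) (z : ℕ → ℝ) : lab R g d z ≤ d := by
  classical
  unfold lab
  split_ifs with h1
  · exact (Nat.find_spec h1).1.le
  · exact le_rfl

theorem lab_congr {R g d : ℕ} {z w : ℕ → ℝ} (h : ∀ j, j < d → z j = w j) :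
    lab R g d z = lab R g d w := by
  classical
  have h1 : (∀ i, (i < d ∧ (th R g i : ℝ) ≤ inc z i) ↔ (i < d ∧ (th R g i : ℝ) ≤ inc w i)) := by
    intro i
    constructor
    · rintro ⟨hi, h2⟩
      refine ⟨hi, ?_⟩
      unfold inc at h2 ⊢
      split_ifs at h2 ⊢ with h3
      · rw [← h 0 (by omega)]; exact h2
      · rw [← h i hi, ← h (i - 1) (by omega)]; exact h2
    · rintro ⟨hi, h2⟩
      refine ⟨hi, ?_⟩
      unfold inc at h2 ⊢
      split_ifs at h2 ⊢ with h3
      · rw [h 0 (by omega)]; exact h2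
      · rw [h i hi, h (i - 1) (by omega)]; exact h2
  unfold lab
  simp only [h1]

/-- `z` lists the `d` points of `B`, one near each target position. -/
def Rep (R g d ρ : ℕ) (B : Finset ℝ) (z : ℕ → ℝ) : Prop :=
  (∀ j, j < d → |z j - tp R g j| < ρ) ∧ B = (Finset.range d).image z

open Classical in
/-- The label of a finite set. -/
noncomputable def label (R g d ρ : ℕ) (B : Finset ℝ) : ℕ :=
  if h : ∃ z, Rep R g d ρ B z then lab R g d h.choose else d + 1

theorem rep_index {R g ρ K : ℕ} (hg : 2 * ρ + K ≤ g) {z w : ℕ → ℝ}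
    {j k : ℕ} (hz : |z j - tp R g j| < ρ) (hw : |w k - tp R g k| < ρ)
    (h : |z j - w k| ≤ K) : j = k := by
  apply tp_sep (R := R) (g := g)
  have h1 : ((2 * ρ + K : ℕ) : ℝ) ≤ g := by exact_mod_cast hg
  push_cast at h1
  rw [abs_lt] at hz hw ⊢
  rw [abs_le] at h
  constructor <;> linarith [hz.1, hz.2, hw.1, hw.2, h.1, h.2]

theorem rep_unique {R g d ρ : ℕ} (hg : 2 * ρ ≤ g) {B : Finset ℝ} {z w : ℕ → ℝ}
    (hz : Rep R g d ρ B z) (hw : Rep R g d ρ B w) : ∀ j, j < d → z j = w j := by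
  intro j hj
  have h1 : z j ∈ B := by
    rw [hz.2]
    exact Finset.mem_image_of_mem _ (Finset.mem_range.2 hj)
  rw [hw.2] at h1
  obtain ⟨k, hk, e⟩ := Finset.mem_image.1 h1
  rw [Finset.mem_range] at hk
  have h2 : j = k := rep_index (K := 0) (by omega) (hz.1 j hj) (hw.1 k hk) (by rw [e]; simp)
  subst h2
  exact e.symm

theorem label_of_rep {R g d ρ : ℕ} (hg : 2 * ρ ≤ g) {B : Finset ℝ} {z : ℕ → ℝ}
    (hz : Rep R g d ρ B z) : label R g d ρ B = lab R g d z := by
  classical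
  unfold label
  rw [dif_pos ⟨z, hz⟩]
  exact lab_congr (rep_unique hg (Exists.choose_spec (⟨z, hz⟩ : ∃ z, Rep R g d ρ B z)) hz)

theorem label_le {R g d ρ : ℕ} (B : Finset ℝ) : label R g d ρ B ≤ d + 1 := by
  classical
  unfold label
  split_ifs with h
  · exact (lab_le _ _ _ _).trans (Nat.le_succ _)
  · exact le_rfl

theorem rep_of_label {R g d ρ : ℕ} {B : Finset ℝ} (h : label R g d ρ B ≤ d) :
    ∃ z, Rep R g d ρ B z ∧ lab R g d z = label R g d ρ B := by
  classical
  unfold label at h ⊢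
  split_ifs at h ⊢ with h1
  · exact ⟨_, h1.choose_spec, rfl⟩
  · omega

theorem not_rep_of_label {R g d ρ : ℕ} (hg : 2 * ρ ≤ g) {B : Finset ℝ}
    (h : label R g d ρ B = d + 1) (z : ℕ → ℝ) : ¬ Rep R g d ρ B z := by
  intro hz
  rw [label_of_rep hg hz] at h
  have := lab_le R g d z
  omega

/-- The members of close nonempty finite sets are close. -/
theorem near_of_hd {A B : Finset ℝ} (hA : A.Nonempty) (hB : B.Nonempty) {K : ℝ}
    (h : Metric.hausdorffDist (A : Set ℝ) (B : Set ℝ) < K) :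
    ∀ a ∈ A, ∃ b ∈ B, |a - b| < K := by
  intro a ha
  have fin : Metric.hausdorffEDist (A : Set ℝ) (B : Set ℝ) ≠ ⊤ :=
    Metric.hausdorffEDist_ne_top_of_nonempty_of_bounded (by exact_mod_cast hA)
      (by exact_mod_cast hB) A.finite_toSet.isBounded B.finite_toSet.isBounded
  obtain ⟨b, hb, hab⟩ := Metric.exists_dist_lt_of_hausdorffDist_lt
    (show a ∈ (A : Set ℝ) from ha) h fin
  exact ⟨b, hb, by rwa [Real.dist_eq] at hab⟩

theorem ps_near {u w : ℕ → ℕ} {k j : ℕ} (hj : j < k)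
    (h : ∀ i, i < k → |(u i : ℝ) - w i| ≤ 1) : |(ps u j : ℝ) - ps w j| ≤ k := by
  have h1 : (ps u j : ℝ) - ps w j = ∑ i ∈ Finset.range (j + 1), ((u i : ℝ) - w i) := by
    simp only [ps]
    push_cast
    rw [Finset.sum_sub_distrib]
  rw [h1]
  calc |∑ i ∈ Finset.range (j + 1), ((u i : ℝ) - w i)|
      ≤ ∑ i ∈ Finset.range (j + 1), |(u i : ℝ) - w i| := Finset.abs_sum_le_sum_abs _ _
    _ ≤ ∑ i ∈ Finset.range (j + 1), (1 : ℝ) := by
        refine Finset.sum_le_sum (fun i hi => h i ?_)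
        rw [Finset.mem_range] at hi; omega
    _ = (j + 1 : ℕ) := by simp
    _ ≤ k := by exact_mod_cast hj

theorem cfg_near {u w : ℕ → ℕ} {k : ℕ}
    (h : ∀ i, i < k → |(u i : ℝ) - w i| ≤ 1) :
    Metric.hausdorffDist (cfg k u : Set ℝ) (cfg k w : Set ℝ) ≤ k := by
  apply Metric.hausdorffDist_le_of_mem_dist (Nat.cast_nonneg k)
  · intro x hx
    obtain ⟨j, hj, rfl⟩ := Finset.mem_image.1 (Finset.mem_coe.1 hx)
    rw [Finset.mem_range] at hj
    refine ⟨(ps w j : ℝ), Finset.mem_coe.2 (Finset.mem_image.2 ⟨j, Finset.mem_range.2 hj, rfl⟩), ?_⟩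
    rw [Real.dist_eq]
    exact ps_near hj h
  · intro x hx
    obtain ⟨j, hj, rfl⟩ := Finset.mem_image.1 (Finset.mem_coe.1 hx)
    rw [Finset.mem_range] at hj
    refine ⟨(ps u j : ℝ), Finset.mem_coe.2 (Finset.mem_image.2 ⟨j, Finset.mem_range.2 hj, rfl⟩), ?_⟩
    rw [Real.dist_eq]
    exact ps_near hj (fun i hi => by rw [abs_sub_comm]; exact h i hi)

theorem cfg_nonempty {k : ℕ} (hk : 0 < k) (u : ℕ → ℕ) : (cfg k u).Nonempty :=
  ⟨_, Finset.mem_image.2 ⟨0, Finset.mem_range.2 hk, rfl⟩⟩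

theorem cfg_card (k : ℕ) (u : ℕ → ℕ) : (cfg k u).card ≤ k :=
  Finset.card_image_le.trans (by simp)

theorem ps_ins_lt (i c : ℕ) (v : ℕ → ℕ) {j : ℕ} (hj : j < i) : ps (ins i c v) j = ps v j := by
  unfold ps
  refine Finset.sum_congr rfl (fun t ht => ?_)
  rw [Finset.mem_range] at ht
  simp only [ins]
  rw [if_pos (by omega)]

theorem ps_ins_ge (i : ℕ) (hi : 1 ≤ i) (v : ℕ → ℕ) {j : ℕ} (hj : i ≤ j) :
    ps (ins i 0 v) j = ps v (j - 1) := by
  induction j, hj using Nat.le_induction with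
  | base =>
    obtain ⟨k, rfl⟩ : ∃ k, i = k + 1 := ⟨i - 1, by omega⟩
    unfold ps
    rw [Finset.sum_range_succ]
    have h1 : ins (k + 1) 0 v (k + 1) = 0 := by simp [ins]
    rw [h1, add_zero]
    exact ps_ins_lt (k + 1) 0 v (Nat.lt_succ_self k)
  | succ j hj ih =>
    have h1 : ps (ins i 0 v) (j + 1) = ps (ins i 0 v) j + ins i 0 v (j + 1) := by
      unfold ps; rw [Finset.sum_range_succ _ (j + 1)]
    have h2 : ins i 0 v (j + 1) = v j := by
      simp only [ins]
      rw [if_neg (by omega), if_neg (by omega)]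
      simp
    rw [h1, ih, h2]
    obtain ⟨k, rfl⟩ : ∃ k, j = k + 1 := ⟨j - 1, by omega⟩
    simp only [Nat.add_sub_cancel, ps]
    rw [Finset.sum_range_succ _ (k + 1)]

/-- Doubling a point does not change the set. -/
theorem cfg_ins {d i : ℕ} (hi : 1 ≤ i) (hid : i ≤ d) (v : ℕ → ℕ) :
    cfg (d + 1) (ins i 0 v) = cfg d v := by
  ext x
  simp only [cfg, Finset.mem_image, Finset.mem_range]
  constructor
  · rintro ⟨j, hj, rfl⟩
    by_cases h : j < i
    · exact ⟨j, by omega, by rw [ps_ins_lt i 0 v h]⟩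
    · exact ⟨j - 1, by omega, by rw [ps_ins_ge i hi v (by omega)]⟩
  · rintro ⟨j, hj, rfl⟩
    by_cases h : j < i
    · exact ⟨j, by omega, by rw [ps_ins_lt i 0 v h]⟩
    · exact ⟨j + 1, by omega, by rw [ps_ins_ge i hi v (by omega)]; simp⟩

end Run7.h157.FS
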